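import Mathlib

/-!
Core analytic lemma for the truncated Legendre-symbol Toeplitz determinant.

Let `p = 2 n + 1` be a prime with `p % 4 = 3`, `K` a field with a primitive additive character
`ψ` of `ZMod p`.  Put `u a = χ a * ψ a`.  A vector solving the bordered Toeplitz system gives a
polynomial vanishing at all `u a`, `a ≠ 0`.
-/

namespace Pool.Agent.P.MP_f45d88_nt

open Polynomial Finset

/-- low coefficients of a product of linear factors `1 + f a * X` -/
theorem coeff_prod_lin {ι K : Type*} [CommRing K] [DecidableEq ι] (s : Finset ι) (f : ι → K) :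
    (∏ a ∈ s, (1 + C (f a) * X)).coeff 0 = 1 ∧
    (∏ a ∈ s, (1 + C (f a) * X)).coeff 1 = ∑ a ∈ s, f a ∧
    2 * (∏ a ∈ s, (1 + C (f a) * X)).coeff 2 = (∑ a ∈ s, f a) ^ 2 - ∑ a ∈ s, f a ^ 2 ∧
    6 * (∏ a ∈ s, (1 + C (f a) * X)).coeff 3 =
      (∑ a ∈ s, f a) ^ 3 - 3 * (∑ a ∈ s, f a) * (∑ a ∈ s, f a ^ 2) + 2 * ∑ a ∈ s, f a ^ 3 := by
  induction s using Finset.induction_on with
  | empty => simp [coeff_one]
  | insert a s ha ih =>
    obtain ⟨h0, h1, h2, h3⟩ := ih
    simp only [Finset.prod_insert ha, Finset.sum_insert ha]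
    set Q := ∏ a ∈ s, (1 + C (f a) * X) with hQ
    have key : ∀ k, ((1 + C (f a) * X) * Q).coeff (k + 1) = Q.coeff (k + 1) + f a * Q.coeff k := by
      intro k
      rw [add_mul, one_mul, coeff_add, mul_assoc, coeff_C_mul, coeff_X_mul]
    have key0 : ((1 + C (f a) * X) * Q).coeff 0 = Q.coeff 0 := by
      rw [add_mul, one_mul, coeff_add, mul_assoc, coeff_C_mul, coeff_X_mul_zero]
      simp
    refine ⟨by rw [key0, h0], ?_, ?_, ?_⟩
    · rw [key 0, h0, h1]; ring
    · rw [key 1, h1]; linear_combination h2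
    · rw [key 2]; linear_combination h3 + 3 * f a * h2

variable {p : ℕ} [hp : Fact p.Prime] {K : Type*} [Field K]

/-- the quadratic character with values in `K` -/
noncomputable def chi (p : ℕ) [Fact p.Prime] (K : Type*) [Field K] : MulChar (ZMod p) K :=
  (quadraticChar (ZMod p)).ringHomComp (Int.castRingHom K)

theorem chi_apply (a : ZMod p) : chi p K a = ((quadraticChar (ZMod p) a : ℤ) : K) := by
  simp [chi]

theorem chi_int (a : ℤ) : chi p K (a : ZMod p) = ((legendreSym p a : ℤ) : K) := by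
  rw [chi_apply]; rfl

theorem chi_zero : chi p K 0 = 0 := by
  rw [chi_apply]; simp

theorem chi_quad : (chi p K).IsQuadratic := (quadraticChar_isQuadratic (ZMod p)).comp _

theorem chi_neg_one (h4 : p % 4 = 3) : chi p K (-1) = -1 := by
  have h := chi_int (p := p) (K := K) (-1)
  have hp2 : p ≠ 2 := by rintro rfl; omega
  rw [legendreSym.at_neg_one hp2, ZMod.χ₄_nat_three_mod_four h4] at h
  simpa using h

theorem chi_neg (h4 : p % 4 = 3) (a : ZMod p) : chi p K (-a) = - chi p K a := by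
  rw [← neg_one_mul, map_mul, chi_neg_one h4]; ring

theorem chi_sq {a : ZMod p} (ha : a ≠ 0) : chi p K a ^ 2 = 1 := by
  rw [chi_apply]
  have := quadraticChar_sq_one ha
  exact_mod_cast congrArg (fun z : ℤ => (z : K)) this

theorem chi_ne_one (h4 : p % 4 = 3) (h2 : (2 : K) ≠ 0) : chi p K ≠ 1 := by
  intro h
  have h1 := chi_neg_one (p := p) (K := K) h4
  rw [h, MulChar.one_apply (isUnit_one.neg)] at h1
  apply h2
  linear_combination h1

theorem sum_chi_psi (ψ : AddChar (ZMod p) K) (t : ZMod p) (ht : t ≠ 0) :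
    ∑ a, chi p K a * ψ (t * a) = chi p K t * gaussSum (chi p K) ψ := by
  have h := gaussSum_mulShift (chi p K) ψ (Units.mk0 t ht)
  have h2 := chi_sq (K := K) ht
  have h3 : gaussSum (chi p K) (AddChar.mulShift ψ t) = ∑ a, chi p K a * ψ (t * a) := by
    simp [gaussSum]
  simp only [Units.val_mk0] at h
  rw [← h3, ← h]
  linear_combination (-gaussSum (chi p K) (AddChar.mulShift ψ t)) * h2

theorem sum_psi {ψ : AddChar (ZMod p) K} (hψ : ψ.IsPrimitive) (t : ZMod p) (ht : t ≠ 0) :
    ∑ a, ψ (t * a) = 0 := by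
  have h := AddChar.sum_eq_zero_of_ne_one (hψ ht)
  simpa using h

theorem psi_eq_one {ψ : AddChar (ZMod p) K} (hψ : ψ.IsPrimitive) {t : ZMod p} (ht : ψ t = 1) :
    t = 0 := (hψ.zmod_char_eq_one_iff p t).1 ht

/-- the points `u a = χ a * ψ a` -/
noncomputable def u (ψ : AddChar (ZMod p) K) (a : ZMod p) : K := chi p K a * ψ a

theorem u_pow_even (ψ : AddChar (ZMod p) K) {a : ZMod p} (ha : a ≠ 0) (l : ℕ) :
    u ψ a ^ (2 * l) = ψ (((2 * l : ℕ) : ZMod p) * a) := by
  rw [u, mul_pow, pow_mul, chi_sq ha, one_pow, one_mul, ← AddChar.map_nsmul_eq_pow, nsmul_eq_mul]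

theorem u_pow_odd (ψ : AddChar (ZMod p) K) {a : ZMod p} (ha : a ≠ 0) (l : ℕ) :
    u ψ a ^ (2 * l + 1) = chi p K a * ψ (((2 * l + 1 : ℕ) : ZMod p) * a) := by
  rw [u, mul_pow, pow_succ (chi p K a), pow_mul, chi_sq ha, one_pow, one_mul,
    ← AddChar.map_nsmul_eq_pow, nsmul_eq_mul]

theorem two_ne_zero_zmod (h4 : p % 4 = 3) : (2 : ZMod p) ≠ 0 := by
  intro h
  have h' : ((2 : ℕ) : ZMod p) = 0 := by exact_mod_cast h
  rw [ZMod.natCast_eq_zero_iff] at h'
  have := Nat.le_of_dvd (by norm_num) h'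
  omega

theorem u_mul_neg (h4 : p % 4 = 3) (ψ : AddChar (ZMod p) K) {a : ZMod p} (ha : a ≠ 0) :
    u ψ a * u ψ (-a) = -1 := by
  have h1 : ψ a * ψ (-a) = 1 := by rw [← AddChar.map_add_eq_mul]; simp
  have h2 := chi_sq (K := K) ha
  rw [u, u, chi_neg h4]
  linear_combination (-(chi p K a) ^ 2) * h1 - h2

theorem u_inj (h4 : p % 4 = 3) {ψ : AddChar (ZMod p) K} (hψ : ψ.IsPrimitive) {a b : ZMod p}
    (ha : a ≠ 0) (hb : b ≠ 0) (h : u ψ a = u ψ b) : a = b := by
  have h1 := u_pow_even ψ ha 1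
  have h2 := u_pow_even ψ hb 1
  rw [h, h2] at h1
  have h3 : ψ (2 * (a - b)) = 1 := by
    have h5 : ψ (2 * (a - b)) * ψ (((2 * 1 : ℕ) : ZMod p) * b) = ψ (((2 * 1 : ℕ) : ZMod p) * a) := by
      rw [← AddChar.map_add_eq_mul]; congr 1; push_cast; ring
    rw [← h1] at h5
    have h6 : ψ (((2 * 1 : ℕ) : ZMod p) * b) ≠ 0 := by
      intro h0
      have := AddChar.map_add_eq_mul ψ (((2 * 1 : ℕ) : ZMod p) * b) (-(((2 * 1 : ℕ) : ZMod p) * b))
      rw [h0] at this
      simp at this
    exact mul_right_cancel₀ h6 (by rw [h5, one_mul])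
  have h5 := psi_eq_one hψ h3
  rcases mul_eq_zero.1 h5 with h6 | h6
  · exact absurd h6 (two_ne_zero_zmod h4)
  · exact sub_eq_zero.1 h6

theorem u_sq_ne_one (h4 : p % 4 = 3) {ψ : AddChar (ZMod p) K} (hψ : ψ.IsPrimitive) {a : ZMod p}
    (ha : a ≠ 0) : u ψ a ^ 2 ≠ 1 := by
  intro h
  have h1 := u_pow_even ψ ha 1
  rw [mul_one, h] at h1
  have h5 := psi_eq_one hψ h1.symm
  rcases mul_eq_zero.1 h5 with h6 | h6
  · exact absurd (by exact_mod_cast h6) (two_ne_zero_zmod h4)
  · exact ha h6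

theorem u_ne_zero (h4 : p % 4 = 3) (ψ : AddChar (ZMod p) K) {a : ZMod p} (ha : a ≠ 0) :
    u ψ a ≠ 0 := by
  intro h
  have := u_mul_neg h4 ψ ha
  rw [h] at this
  simp at this

/-- the nonzero residues -/
abbrev nz (p : ℕ) [Fact p.Prime] : Finset (ZMod p) := (Finset.univ : Finset (ZMod p)).erase 0

theorem prod_nz_neg {M : Type*} [CommMonoid M] (f : ZMod p → M) :
    ∏ a ∈ nz p, f (-a) = ∏ a ∈ nz p, f a := by
  refine Finset.prod_bij (fun a _ => -a) ?_ ?_ ?_ ?_
  · intro a ha; simpa using ha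
  · intro a _ b _ h; exact neg_injective h
  · intro b hb; exact ⟨-b, by simpa using hb, by simp⟩
  · intro a _; rfl

theorem prod_nz_id : ∏ a ∈ nz p, a = -1 := by
  have h := FiniteField.prod_univ_units_id_eq_neg_one (K := ZMod p)
  have h2 := congrArg (fun x : (ZMod p)ˣ => (x : ZMod p)) h
  simp only [Units.coe_prod, Units.val_neg, Units.val_one] at h2
  rw [← h2]
  symm
  refine Finset.prod_bij (fun a _ => (a : ZMod p)) ?_ ?_ ?_ ?_
  · intro a _; simp
  · intro a _ b _ h; exact Units.ext h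
  · intro b hb; exact ⟨Units.mk0 b (by simpa using hb), by simp, by simp⟩
  · intro a _; rfl

theorem sum_nz_id (h4 : p % 4 = 3) : ∑ a ∈ nz p, a = 0 := by
  have h : ∑ a ∈ nz p, (-a) = ∑ a ∈ nz p, a := by
    refine Finset.sum_bij (fun a _ => -a) ?_ ?_ ?_ ?_
    · intro a ha; simpa using ha
    · intro a _ b _ h; exact neg_injective h
    · intro b hb; exact ⟨-b, by simpa using hb, by simp⟩
    · intro a _; rfl
  rw [Finset.sum_neg_distrib] at h
  have h2 : (2 : ZMod p) * ∑ a ∈ nz p, a = 0 := by linear_combination -h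
  rcases mul_eq_zero.1 h2 with h6 | h6
  · exact absurd h6 (two_ne_zero_zmod h4)
  · exact h6

theorem prod_u (h4 : p % 4 = 3) (ψ : AddChar (ZMod p) K) : ∏ a ∈ nz p, u ψ a = -1 := by
  simp only [u]
  rw [Finset.prod_mul_distrib, ← map_prod, prod_nz_id, chi_neg_one h4]
  have : ∏ a ∈ nz p, ψ a = ψ (∑ a ∈ nz p, a) := by
    induction (nz p) using Finset.induction_on with
    | empty => simp
    | insert a s ha ih => rw [Finset.prod_insert ha, Finset.sum_insert ha, AddChar.map_add_eq_mul, ih]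
  rw [this, sum_nz_id h4]
  simp

theorem card_nz : (nz p).card = p - 1 := by
  rw [Finset.card_erase_of_mem (Finset.mem_univ _), Finset.card_univ, ZMod.card]

/-- the polynomial `∏ (1 + u a * X)` -/
noncomputable def H (ψ : AddChar (ZMod p) K) : K[X] := ∏ a ∈ nz p, (1 + C (u ψ a) * X)

theorem H_eval_one_ne (h4 : p % 4 = 3) {ψ : AddChar (ZMod p) K} (hψ : ψ.IsPrimitive) :
    (H ψ).eval 1 ≠ 0 := by
  rw [H, eval_prod]
  refine Finset.prod_ne_zero_iff.2 fun a ha h => ?_
  have ha' : a ≠ 0 := by simpa using ha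
  apply u_sq_ne_one h4 hψ ha'
  simp only [eval_add, eval_one, eval_mul, eval_C, eval_X, mul_one] at h
  have : u ψ a = -1 := by linear_combination h
  rw [this]; ring

theorem H_eval_neg_one (h4 : p % 4 = 3) (ψ : AddChar (ZMod p) K) :
    (H ψ).eval (-1) = - (H ψ).eval 1 := by
  rw [H, eval_prod, eval_prod]
  simp only [eval_add, eval_one, eval_mul, eval_C, eval_X, mul_one]
  rw [← prod_nz_neg (fun a => 1 + u ψ a)]
  have h1 : ∏ a ∈ nz p, (1 + u ψ a * -1) = ∏ a ∈ nz p, ((-1) * (u ψ a * (1 + u ψ (-a)))) := by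
    refine Finset.prod_congr rfl fun a ha => ?_
    have ha' : a ≠ 0 := by simpa using ha
    have := u_mul_neg h4 ψ ha'
    linear_combination this
  rw [h1, Finset.prod_mul_distrib, Finset.prod_mul_distrib, prod_u h4, Finset.prod_const, card_nz]
  have : Even (p - 1) := by rw [Nat.even_iff]; omega
  rw [this.neg_one_pow]
  ring

theorem H_natDegree (h4 : p % 4 = 3) (ψ : AddChar (ZMod p) K) : (H ψ).natDegree = p - 1 := by
  rw [H, natDegree_prod]
  · rw [← card_nz, Finset.card_eq_sum_ones]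
    refine Finset.sum_congr rfl fun a ha => ?_
    have ha' : a ≠ 0 := by simpa using ha
    have := u_ne_zero h4 ψ ha'
    rw [add_comm, ← C_1]
    exact natDegree_linear this
  · intro a ha h
    have := congrArg (fun q => q.coeff 0) h
    simp at this

theorem H_dvd (h4 : p % 4 = 3) {ψ : AddChar (ZMod p) K} (hψ : ψ.IsPrimitive) {G : K[X]}
    (hG : ∀ a : ZMod p, a ≠ 0 → G.eval (u ψ a) = 0) : H ψ ∣ G := by
  have h1 : (∏ a ∈ nz p, (X - C (u ψ (-a)))) ∣ G := by
    refine Finset.prod_dvd_of_coprime ?_ ?_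
    · intro a ha b hb hab
      have ha' : a ≠ 0 := by simpa using ha
      have hb' : b ≠ 0 := by simpa using hb
      refine isCoprime_X_sub_C_of_isUnit_sub (IsUnit.mk0 _ fun h => hab ?_)
      exact neg_injective (u_inj h4 hψ (neg_ne_zero.2 ha') (neg_ne_zero.2 hb') (sub_eq_zero.1 h))
    · intro a ha
      have ha' : a ≠ 0 := by simpa using ha
      exact dvd_iff_isRoot.2 (hG _ (neg_ne_zero.2 ha'))
  refine dvd_trans ?_ h1
  refine Finset.prod_dvd_prod_of_dvd _ _ fun a ha => ?_
  have ha' : a ≠ 0 := by simpa using ha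
  refine ⟨C (- u ψ (-a)), ?_⟩
  have h2 : (C (u ψ a) * C (u ψ (-a)) : K[X]) = -1 := by
    rw [← C_mul, u_mul_neg h4 ψ ha']; simp
  rw [C_neg]
  linear_combination (X : K[X]) * h2

theorem sum_nz (f : ZMod p → K) : ∑ a ∈ nz p, f a = ∑ a, f a - f 0 := by
  rw [← Finset.add_sum_erase _ _ (Finset.mem_univ (0 : ZMod p))]; ring

theorem gauss_sq (h4 : p % 4 = 3) (h2 : (2 : K) ≠ 0)
    {ψ : AddChar (ZMod p) K} (hψ : ψ.IsPrimitive) : gaussSum (chi p K) ψ ^ 2 = - (p : K) := by
  have h := gaussSum_sq (χ := chi p K) (chi_ne_one h4 h2) chi_quad hψ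
  rw [h, chi_neg_one h4, ZMod.card]; ring

theorem H_coeffs (h4 : p % 4 = 3) (h3 : p ≠ 3) (h2 : (2 : K) ≠ 0)
    {ψ : AddChar (ZMod p) K} (hψ : ψ.IsPrimitive) :
    (H ψ).coeff 0 = 1 ∧ (H ψ).coeff 1 = gaussSum (chi p K) ψ ∧
    3 * ((H ψ).coeff 3 - (H ψ).coeff 1 * (H ψ).coeff 2 - (H ψ).coeff 1) =
      gaussSum (chi p K) ψ * ((p : K) - 3 + chi p K 3) := by
  obtain ⟨e0, e1, e2, e3⟩ := coeff_prod_lin (nz p) (u ψ)
  have p1 : ∑ a ∈ nz p, u ψ a = gaussSum (chi p K) ψ := by
    rw [sum_nz]; simp [u, gaussSum, chi_zero]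
  have p2 : ∑ a ∈ nz p, u ψ a ^ 2 = -1 := by
    have : ∑ a ∈ nz p, u ψ a ^ 2 = ∑ a ∈ nz p, ψ (2 * a) := by
      refine Finset.sum_congr rfl fun a ha => ?_
      have ha' : a ≠ 0 := by simpa using ha
      have := u_pow_even ψ ha' 1
      simpa using this
    rw [this, sum_nz, sum_psi hψ 2 (two_ne_zero_zmod h4)]
    simp
  have h30 : (3 : ZMod p) ≠ 0 := by
    intro h
    have h' : ((3 : ℕ) : ZMod p) = 0 := by exact_mod_cast h
    rw [ZMod.natCast_eq_zero_iff] at h'
    exact h3 ((Nat.prime_dvd_prime_iff_eq hp.out Nat.prime_three).1 h')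
  have p3 : ∑ a ∈ nz p, u ψ a ^ 3 = chi p K 3 * gaussSum (chi p K) ψ := by
    have : ∑ a ∈ nz p, u ψ a ^ 3 = ∑ a ∈ nz p, chi p K a * ψ (3 * a) := by
      refine Finset.sum_congr rfl fun a ha => ?_
      have ha' : a ≠ 0 := by simpa using ha
      have := u_pow_odd ψ ha' 1
      simpa using this
    rw [this, sum_nz, sum_chi_psi ψ 3 h30]
    simp [chi_zero]
  have hg := gauss_sq h4 h2 hψ
  rw [p1] at e1 e2 e3
  rw [p2] at e2 e3
  rw [p3] at e3
  refine ⟨e0, e1, ?_⟩
  apply mul_left_cancel₀ h2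
  rw [H, e1]
  linear_combination e3 - 3 * gaussSum (chi p K) ψ * e2 - 2 * gaussSum (chi p K) ψ * hg

/-- a sum over `ZMod p` of a function supported on `{-l : l < N}` -/
theorem sum_range_neg (f : ZMod p → K) : ∑ l ∈ range p, f (-(l : ZMod p)) = ∑ j, f j := by
  refine Finset.sum_bij (fun l _ => -(l : ZMod p)) ?_ ?_ ?_ ?_
  · intro a _; simp
  · intro a ha b hb h
    have h' := neg_injective h
    rw [ZMod.natCast_eq_natCast_iff'] at h'
    rw [Nat.mod_eq_of_lt (mem_range.1 ha), Nat.mod_eq_of_lt (mem_range.1 hb)] at h'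
    exact h'
  · intro b _
    exact ⟨(-b).val, mem_range.2 (ZMod.val_lt _), by simp⟩
  · intro a _; rfl

theorem core (n : ℕ) (hn : p = 2 * n + 1) (h4 : p % 4 = 3) (h3 : p ≠ 3) (h2 : (2 : K) ≠ 0)
    (hpK : (p : K) ≠ 0) {ψ : AddChar (ZMod p) K} (hψ : ψ.IsPrimitive) (y : ℕ → K) (c d : K)
    (hy : ∀ j < n, ∑ k ∈ range n, chi p K ((j : ZMod p) - k) * y k + c = if j = 0 then d else 0)
    (hs : ∑ k ∈ range n, y k = 0) :
    (d = 0 → ∀ k < n, y k = 0) ∧
      3 * chi p K 2 * y (n - 1) = d * ((p : K) - 3 + chi p K 3) := by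
  have hn1 : 1 ≤ n := by omega
  set γ := gaussSum (chi p K) ψ with hγ
  have hγ0 : γ ≠ 0 := by
    intro h
    have := gauss_sq h4 h2 hψ
    rw [← hγ, h] at this
    apply hpK
    linear_combination this
  have hc2 : chi p K 2 ^ 2 = 1 := chi_sq (two_ne_zero_zmod h4)
  have hc2' : chi p K 2 ≠ 0 := by intro h; rw [h] at hc2; simp at hc2
  set κ := chi p K 2 * γ with hκ
  have hκ0 : κ ≠ 0 := mul_ne_zero hc2' hγ0
  set w : ZMod p → K := fun j => ∑ k ∈ range n, chi p K (j - k) * y k + c with hw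
  set G : K[X] := ∑ l ∈ range (n + 2), monomial (2 * l) (w (-(l : ZMod p))) +
    ∑ k ∈ range n, monomial (2 * (n - k) + 1) (κ * y k) with hG
  have hp0 : (2 * (n : ZMod p) + 1) = 0 := by
    have : ((2 * n + 1 : ℕ) : ZMod p) = 0 := by rw [← hn]; simp
    exact_mod_cast this
  -- `G` vanishes at the points `u a`
  have hroot : ∀ a : ZMod p, a ≠ 0 → G.eval (u ψ a) = 0 := by
    intro a ha
    rw [hG, eval_add, eval_finsetSum, eval_finsetSum]
    simp only [eval_monomial]
    have e1 : ∑ l ∈ range (n + 2), w (-(l : ZMod p)) * u ψ a ^ (2 * l) =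
        ∑ j, w j * ψ (-2 * j * a) := by
      rw [← sum_range_neg (fun j => w j * ψ (-2 * j * a))]
      have hsub : range (n + 2) ⊆ range p := by
        intro l hl; rw [mem_range] at hl ⊢; omega
      rw [← Finset.sum_subset hsub]
      · refine Finset.sum_congr rfl fun l _ => ?_
        rw [u_pow_even ψ ha]
        congr 2
        push_cast; ring
      · intro l hl hl'
        rw [mem_range] at hl hl'
        have hj := hy (p - l) (by omega)
        rw [if_neg (by omega)] at hj
        have hc : ((p - l : ℕ) : ZMod p) = -(l : ZMod p) := by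
          rw [Nat.cast_sub hl.le]; simp
        rw [hc] at hj
        have : w (-(l : ZMod p)) = 0 := hj
        rw [this, zero_mul]
    have ha2 : (-2 * a) ≠ 0 := mul_ne_zero (neg_ne_zero.2 (two_ne_zero_zmod h4)) ha
    have e2 : ∑ j, w j * ψ (-2 * j * a) =
        ∑ k ∈ range n, y k * (ψ (-2 * k * a) * (chi p K (-2 * a) * γ)) := by
      simp only [hw, add_mul, Finset.sum_add_distrib, Finset.sum_mul]
      have z : ∑ j : ZMod p, c * ψ (-2 * j * a) = 0 := by
        rw [← Finset.mul_sum]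
        have := sum_psi hψ _ ha2
        have h' : ∑ j : ZMod p, ψ (-2 * j * a) = ∑ j : ZMod p, ψ (-2 * a * j) :=
          Finset.sum_congr rfl fun j _ => by congr 1; ring
        rw [h', this, mul_zero]
      rw [z, add_zero, Finset.sum_comm]
      refine Finset.sum_congr rfl fun k _ => ?_
      rw [hγ, ← sum_chi_psi ψ _ ha2, Finset.mul_sum, Finset.mul_sum]
      rw [← Equiv.sum_comp (Equiv.addRight (k : ZMod p))]
      refine Finset.sum_congr rfl fun j _ => ?_
      simp only [Equiv.coe_addRight, add_sub_cancel_right]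
      have : ψ (-2 * (j + k) * a) = ψ (-2 * k * a) * ψ (-2 * a * j) := by
        rw [← AddChar.map_add_eq_mul]; congr 1; ring
      rw [this]; ring
    rw [e1, e2, ← Finset.sum_add_distrib]
    refine Finset.sum_eq_zero fun k hk => ?_
    rw [mem_range] at hk
    rw [u_pow_odd ψ ha]
    have : ((2 * (n - k) + 1 : ℕ) : ZMod p) * a = -2 * k * a := by
      push_cast [Nat.cast_sub hk.le]
      linear_combination a * hp0
    rw [this, neg_mul 2 a, chi_neg h4, map_mul (chi p K) 2 a, hκ]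
    ring
  have hdeg : G.natDegree ≤ 2 * n + 2 := by
    rw [hG]
    refine natDegree_add_le_of_degree_le ?_ ?_
    · refine natDegree_sum_le_of_forall_le _ _ fun l hl => ?_
      rw [mem_range] at hl
      exact (natDegree_monomial_le _).trans (by omega)
    · refine natDegree_sum_le_of_forall_le _ _ fun l hl => ?_
      exact (natDegree_monomial_le _).trans (by omega)
  have hG0 : G.coeff 0 = d := by
    rw [hG, coeff_add, finsetSum_coeff, finsetSum_coeff]
    simp only [coeff_monomial]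
    rw [Finset.sum_eq_single 0, Finset.sum_eq_zero]
    · have := hy 0 (by omega)
      simpa [hw] using this
    · intro k _; rw [if_neg (by omega)]
    · intro l _ hl; rw [if_neg (by omega)]
    · intro h; exact absurd (mem_range.2 (by omega)) h
  have hGodd : ∀ i : ℕ, G.coeff (2 * i + 1) =
      ∑ k ∈ range n, if 2 * (n - k) + 1 = 2 * i + 1 then κ * y k else 0 := by
    intro i
    rw [hG, coeff_add, finsetSum_coeff, finsetSum_coeff]
    simp only [coeff_monomial]
    rw [Finset.sum_eq_zero, zero_add]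
    intro l _; rw [if_neg (by omega)]
  have hG1 : G.coeff 1 = 0 := by
    have := hGodd 0
    rw [Finset.sum_eq_zero] at this
    · simpa using this
    · intro k hk; rw [mem_range] at hk; rw [if_neg (by omega)]
  have hGk : ∀ k < n, G.coeff (2 * (n - k) + 1) = κ * y k := by
    intro k hk
    rw [hGodd, Finset.sum_eq_single k]
    · simp
    · intro l hl hlk; rw [mem_range] at hl; rw [if_neg (by omega)]
    · intro h; exact absurd (mem_range.2 hk) h
  have hev : G.eval 1 = G.eval (-1) := by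
    rw [hG, eval_add, eval_add]
    simp only [eval_finsetSum, eval_monomial, pow_succ, pow_mul, one_pow, mul_one, pow_zero,
      mul_neg, neg_neg]
    simp only [Finset.sum_neg_distrib, ← Finset.mul_sum, hs]
    simp
  obtain ⟨T, hT⟩ := H_dvd h4 hψ hroot
  have hH0 : H ψ ≠ 0 := by
    intro h
    have := H_eval_one_ne h4 hψ
    rw [h] at this; simp at this
  have hTdeg : T.natDegree < 3 := by
    by_cases hT0 : T = 0
    · rw [hT0]; simp
    · have := natDegree_mul hH0 hT0
      rw [← hT, H_natDegree h4] at this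
      omega
  obtain ⟨c0, c1, c3⟩ := H_coeffs h4 h3 h2 hψ
  have hT3 : T.coeff 3 = 0 := coeff_eq_zero_of_natDegree_lt hTdeg
  have q0 : T.coeff 0 = d := by
    rw [← hG0, hT, mul_coeff_zero, c0, one_mul]
  have q1 : T.coeff 1 = - d * (H ψ).coeff 1 := by
    rw [hT, coeff_mul, Finset.Nat.sum_antidiagonal_eq_sum_range_succ_mk] at hG1
    simp only [Finset.sum_range_succ, Finset.sum_range_zero] at hG1
    norm_num at hG1
    rw [c0, q0] at hG1
    linear_combination hG1
  have q2 : T.coeff 2 = - d := by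
    rw [hT, eval_mul, eval_mul, H_eval_neg_one h4, eval_eq_sum_range' hTdeg,
      eval_eq_sum_range' hTdeg] at hev
    simp only [Finset.sum_range_succ, Finset.sum_range_zero] at hev
    have h5 : (H ψ).eval 1 * (2 * (T.coeff 0 + T.coeff 2)) = 0 := by linear_combination hev
    rcases mul_eq_zero.1 h5 with h | h
    · exact absurd h (H_eval_one_ne h4 hψ)
    · rcases mul_eq_zero.1 h with h | h
      · exact absurd h h2
      · rw [q0] at h; linear_combination h
  constructor
  · intro hd k hk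
    have hT0 : T = 0 := by
      rw [as_sum_range' T 3 hTdeg]
      simp [Finset.sum_range_succ, q0, q1, q2, hd]
    have := hGk k hk
    rw [hT, hT0] at this
    simp only [mul_zero, coeff_zero] at this
    rcases mul_eq_zero.1 this.symm with h | h
    · exact absurd h hκ0
    · exact h
  · have h5 := hGk (n - 1) (by omega)
    have : 2 * (n - (n - 1)) + 1 = 3 := by omega
    rw [this, hT, coeff_mul, Finset.Nat.sum_antidiagonal_eq_sum_range_succ_mk] at h5
    simp only [Finset.sum_range_succ, Finset.sum_range_zero] at h5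
    norm_num at h5
    rw [hT3, q0, q1, q2, hκ] at h5
    apply mul_left_cancel₀ hγ0
    linear_combination d * c3 - 3 * h5

end Pool.Agent.P.MP_f45d88_nt
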