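import Pool.Agent.P.MP_f45d88_nt.Core

/-!
Matrix part: the bordered Legendre-symbol Toeplitz matrix of order `(p - 1) / 2 + 1` is
unimodular, has determinant `1`, and Jacobi's complementary minor identity gives the bordered
determinant of order `(p - 5) / 2 + 1`.
-/

namespace Pool.Agent.P.MP_f45d88_nt

open Polynomial Finset Matrix

/-- border a square matrix by a column of `1` and a row of `-1` -/
def bord {ι R : Type*} [Ring R] (A : Matrix ι ι R) : Matrix (ι ⊕ Unit) (ι ⊕ Unit) R :=
  Matrix.fromBlocks A (Matrix.of fun _ _ => 1) (Matrix.of fun _ _ => -1) 0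

/-- the Toeplitz matrix of Legendre symbols, with entries in `R` -/
def toep (p : ℕ) [Fact p.Prime] (R : Type*) [Ring R] (m : ℕ) : Matrix (Fin m) (Fin m) R :=
  Matrix.of fun j k => ((legendreSym p ((j : ℤ) - (k : ℤ)) : ℤ) : R)

theorem det_add_const {ι R : Type*} [CommRing R] [Fintype ι] [DecidableEq ι]
    (A : Matrix ι ι R) (x : R) :
    (Matrix.of fun j k => x + A j k).det = A.det + x * (bord A).det := by
  have h1 : (Matrix.fromBlocks A (Matrix.of fun _ _ => x) (Matrix.of fun _ _ => -1)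
      (1 : Matrix Unit Unit R)).det = (Matrix.of fun j k => x + A j k).det := by
    rw [Matrix.det_fromBlocks_one₂₂]
    congr 1
    ext j k
    simp [Matrix.mul_apply, add_comm]
  have h2 : Matrix.fromBlocks A (Matrix.of fun _ _ => x) (Matrix.of fun _ _ => -1)
      (1 : Matrix Unit Unit R) = (bord A).updateCol (Sum.inr ())
        ((fun i => Sum.elim (fun _ => (0 : R)) (fun _ => 1) i) +
          x • (fun i => bord A i (Sum.inr ()))) := by
    ext (i | i) (j | j) <;> simp [bord]
  have h3 : (bord A).updateCol (Sum.inr ()) (fun i => Sum.elim (fun _ => (0 : R)) (fun _ => 1) i)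
      = Matrix.fromBlocks A 0 (Matrix.of fun _ _ => -1) (1 : Matrix Unit Unit R) := by
    ext (i | i) (j | j) <;> simp [bord]
  rw [← h1, h2, Matrix.det_updateCol_add, Matrix.det_updateCol_smul, h3,
    Matrix.det_fromBlocks_zero₁₂, Matrix.updateCol_eq_self]
  simp

theorem jacobi {α β R : Type*} [CommRing R] [Fintype α] [DecidableEq α] [Fintype β]
    [DecidableEq β] (M N : Matrix (α ⊕ β) (α ⊕ β) R) (h : M * N = 1) :
    M.det * N.toBlocks₂₂.det = M.toBlocks₁₁.det := by
  have h1 : M * Matrix.fromBlocks 1 N.toBlocks₁₂ 0 N.toBlocks₂₂ =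
      Matrix.fromBlocks M.toBlocks₁₁ 0 M.toBlocks₂₁ 1 := by
    rw [← Matrix.fromBlocks_toBlocks M, ← Matrix.fromBlocks_toBlocks N, Matrix.fromBlocks_multiply,
      ← Matrix.fromBlocks_one, Matrix.fromBlocks_inj] at h
    obtain ⟨-, h12, -, h22⟩ := h
    conv_lhs => rw [← Matrix.fromBlocks_toBlocks M]
    rw [Matrix.fromBlocks_multiply, h12, h22]
    simp
  have h2 := congrArg Matrix.det h1
  rw [Matrix.det_mul, Matrix.det_fromBlocks_zero₂₁, Matrix.det_fromBlocks_zero₁₂] at h2
  simpa using h2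

theorem det_skew_nonneg {ι : Type*} [Fintype ι] [DecidableEq ι] (A : Matrix ι ι ℝ)
    (hA : Aᵀ = -A) : 0 ≤ A.det := by
  by_contra hneg
  push Not at hneg
  set φ : ℝ → ℝ := fun t => (t • (1 : Matrix ι ι ℝ) + (1 - t) • A).det with hφ
  have hc : Continuous φ := by
    refine Continuous.matrix_det ?_
    fun_prop
  have h0 : φ 0 = A.det := by simp [hφ]
  have h1 : φ 1 = 1 := by simp [hφ]
  obtain ⟨t, ht, hz⟩ := intermediate_value_Ioc (zero_le_one' ℝ) hc.continuousOn
    (show (0 : ℝ) ∈ Set.Ioc (φ 0) (φ 1) by rw [h0, h1]; exact ⟨hneg, zero_le_one⟩)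
  obtain ⟨v, hv, hmv⟩ := Matrix.exists_mulVec_eq_zero_iff.2 hz
  have hq : v ⬝ᵥ (A *ᵥ v) = 0 := by
    have e1 : v ⬝ᵥ (A *ᵥ v) = v ⬝ᵥ (Aᵀ *ᵥ v) := by
      rw [Matrix.dotProduct_mulVec, Matrix.mulVec_transpose, dotProduct_comm]
    rw [hA, Matrix.neg_mulVec, dotProduct_neg] at e1
    linarith
  have h3 := congrArg (fun z => v ⬝ᵥ z) hmv
  simp only [Matrix.add_mulVec, Matrix.smul_mulVec, Matrix.one_mulVec, dotProduct_add,
    dotProduct_smul, hq, smul_eq_mul, mul_zero, add_zero, dotProduct_zero] at h3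
  rcases mul_eq_zero.1 h3 with h | h
  · exact absurd h ht.1.ne'
  · exact hv (dotProduct_self_eq_zero.1 h)

variable {p : ℕ} [hp : Fact p.Prime]

theorem leg_neg (h4 : p % 4 = 3) (a : ℤ) : legendreSym p (-a) = - legendreSym p a := by
  have hp2 : p ≠ 2 := by rintro rfl; omega
  rw [legendreSym.at_neg hp2, ZMod.χ₄_nat_three_mod_four h4]; ring

theorem toep_skew (h4 : p % 4 = 3) (R : Type*) [Ring R] (m : ℕ) :
    (toep p R m)ᵀ = - toep p R m := by
  ext j k
  simp only [toep, Matrix.transpose_apply, Matrix.of_apply, Matrix.neg_apply]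
  rw [← neg_sub (j : ℤ) k, leg_neg h4]; simp

theorem bord_skew {ι R : Type*} [Ring R] {A : Matrix ι ι R} (h : Aᵀ = -A) :
    (bord A)ᵀ = - bord A := by
  ext (i | i) (j | j)
  · have := congrFun (congrFun h i) j
    simpa [bord] using this
  · simp [bord]
  · simp [bord]
  · simp [bord]

theorem bord_toep_map {R S : Type*} [Ring R] [Ring S] (f : R →+* S) (m : ℕ) :
    (bord (toep p R m)).map f = bord (toep p S m) := by
  ext (i | i) (j | j) <;> simp [bord, toep]

theorem det_bord_cast (S : Type*) [CommRing S] (m : ℕ) :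
    (((bord (toep p ℤ m)).det : ℤ) : S) = (bord (toep p S m)).det := by
  rw [← bord_toep_map (Int.castRingHom S) m]
  exact (RingHom.map_det (Int.castRingHom S) _).trans (by simp [RingHom.mapMatrix_apply])

/-- extension of a vector to all natural indices -/
def ext {R : Type*} [Zero R] {n : ℕ} (v : Fin n ⊕ Unit → R) (k : ℕ) : R :=
  if h : k < n then v (Sum.inl ⟨k, h⟩) else 0

theorem mulVec_eqs {R : Type*} [CommRing R] {n : ℕ} (v z : Fin n ⊕ Unit → R)
    (h : bord (toep p R n) *ᵥ v = z) :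
    (∀ j (hj : j < n), ∑ k ∈ range n, ((legendreSym p ((j : ℤ) - (k : ℤ)) : ℤ) : R) * ext v k
      + v (Sum.inr ()) = z (Sum.inl ⟨j, hj⟩)) ∧
    ∑ k ∈ range n, ext v k = - z (Sum.inr ()) := by
  constructor
  · intro j hj
    rw [← h, Finset.sum_range]
    simp [bord, toep, Matrix.mulVec, dotProduct, ext]
  · rw [← h, Finset.sum_range]
    simp [bord, Matrix.mulVec, dotProduct, ext]

theorem eq_zero_of_ext {R : Type*} [CommRing R] {n : ℕ} (hn : 0 < n) (v : Fin n ⊕ Unit → R)
    (h : bord (toep p R n) *ᵥ v = 0) (h0 : ∀ k < n, ext v k = 0) : v = 0 := by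
  have h1 := (mulVec_eqs v 0 h).1 0 hn
  rw [Finset.sum_eq_zero (fun k hk => by rw [h0 k (mem_range.1 hk), mul_zero])] at h1
  ext (i | i)
  · have := h0 i i.2
    simpa [ext] using this
  · simpa using h1

theorem det_ne_zero_generic (n : ℕ) (hn : p = 2 * n + 1) (h4 : p % 4 = 3) (h3 : p ≠ 3)
    (F : Type*) [Field F] (h2 : (2 : F) ≠ 0) (hpF : (p : F) ≠ 0) :
    (bord (toep p F n)).det ≠ 0 := by
  have : NeZero (p : F) := ⟨hpF⟩
  obtain ⟨N, ψ, hψ⟩ := AddChar.primitiveZModChar ⟨p, hp.out.pos⟩ F hpF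
  set K := CyclotomicField N F
  have hinj : Function.Injective (algebraMap F K) := (algebraMap F K).injective
  have h2K : (2 : K) ≠ 0 := by
    intro h; apply h2; apply hinj; rw [map_ofNat, map_zero]; exact h
  have hpK : (p : K) ≠ 0 := by
    intro h; apply hpF; apply hinj; rw [map_natCast, map_zero]; exact h
  intro hdet
  have hdetK : (bord (toep p K n)).det = 0 := by
    rw [← bord_toep_map (algebraMap F K) n]
    have := RingHom.map_det (algebraMap F K) (bord (toep p F n))
    rw [hdet, map_zero] at this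
    exact this.symm
  obtain ⟨v, hv, hmv⟩ := Matrix.exists_mulVec_eq_zero_iff.2 hdetK
  obtain ⟨e1, e2⟩ := mulVec_eqs v 0 hmv
  have hc := core (p := p) n hn h4 h3 h2K hpK (ψ := ψ) hψ (ext v) (v (Sum.inr ())) 0
    (fun j hj => by
      have := e1 j hj
      simp only [← chi_int] at this
      push_cast at this
      simpa using this) (by simpa using e2)
  exact hv (eq_zero_of_ext (by omega) v hmv (hc.1 rfl))

theorem det_ne_zero_two (n : ℕ) (hn : p = 2 * n + 1) (h4 : p % 4 = 3) :
    (bord (toep p (ZMod 2) n)).det ≠ 0 := by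
  intro hdet
  obtain ⟨v, hv, hmv⟩ := Matrix.exists_mulVec_eq_zero_iff.2 hdet
  obtain ⟨e1, e2⟩ := mulVec_eqs v 0 hmv
  simp only [Pi.zero_apply, neg_zero] at e1 e2
  have hall : ∀ j < n, ext v j = v (Sum.inr ()) := by
    intro j hj
    have h1 := e1 j hj
    have h5 : ∀ k ∈ range n, ((legendreSym p ((j : ℤ) - (k : ℤ)) : ℤ) : ZMod 2) * ext v k =
        ext v k - if k = j then ext v j else 0 := by
      intro k hk
      rw [mem_range] at hk
      by_cases hkj : k = j
      · subst hkj; simp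
      · rw [if_neg hkj, sub_zero]
        have hne : (((j : ℤ) - (k : ℤ) : ℤ) : ZMod p) ≠ 0 := by
          rw [Ne, ZMod.intCast_zmod_eq_zero_iff_dvd]
          intro hd
          have := Int.eq_zero_of_abs_lt_dvd hd (by rw [abs_lt]; omega)
          omega
        rcases legendreSym.eq_one_or_neg_one p hne with h | h <;> rw [h]
        · simp
        · have : ((-1 : ℤ) : ZMod 2) = 1 := by decide
          rw [this, one_mul]
    rw [Finset.sum_congr rfl h5, Finset.sum_sub_distrib, e2, Finset.sum_ite_eq' (range n) j,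
      if_pos (mem_range.2 hj)] at h1
    linear_combination -h1
  rw [Finset.sum_congr rfl (fun k hk => hall k (mem_range.1 hk)), Finset.sum_const, card_range,
    nsmul_eq_mul] at e2
  have hn2 : (n : ZMod 2) = 1 := by
    rw [ZMod.natCast_eq_one_iff_odd, Nat.odd_iff]; omega
  rw [hn2, one_mul] at e2
  exact hv (eq_zero_of_ext (by omega) v hmv (fun k hk => by rw [hall k hk, e2]))

theorem det_ne_zero_self (n : ℕ) (hn : p = 2 * n + 1) (h4 : p % 4 = 3) :
    (bord (toep p (ZMod p) n)).det ≠ 0 := by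
  intro hdet
  obtain ⟨v, hv, hmv⟩ := Matrix.exists_mulVec_eq_zero_iff.2 hdet
  obtain ⟨e1, e2⟩ := mulVec_eqs v 0 hmv
  simp only [Pi.zero_apply, neg_zero] at e1 e2
  have hn0 : 0 < n := by omega
  have hpn : p / 2 = n := by omega
  set f : (ZMod p)[X] := ∑ k ∈ range n, C (ext v k) * (X + C (-(k : ZMod p))) ^ n +
    C (v (Sum.inr ())) with hf
  have hcoeff : ∀ i, 0 < i → f.coeff i =
      (n.choose i : ZMod p) * ∑ k ∈ range n, ext v k * (-(k : ZMod p)) ^ (n - i) := by
    intro i hi
    rw [hf, coeff_add, finsetSum_coeff, coeff_C, if_neg hi.ne', add_zero, Finset.mul_sum]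
    refine Finset.sum_congr rfl fun k _ => ?_
    rw [coeff_C_mul, coeff_X_add_C_pow]; ring
  have hdeg : f.natDegree < n := by
    have : f.degree < n := by
      rw [degree_lt_iff_coeff_zero]
      intro m hm
      rw [hcoeff m (by omega)]
      rcases hm.eq_or_lt with h | h
      · subst h; simp [e2]
      · rw [Nat.choose_eq_zero_of_lt h]; simp
    by_cases hf0 : f = 0
    · rw [hf0]; simpa using hn0
    · exact (natDegree_lt_iff_degree_lt hf0).2 this
  have hinj : Function.Injective (fun k : Fin n => ((k : ℕ) : ZMod p)) := by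
    intro a b h
    simp only at h
    rw [ZMod.natCast_eq_natCast_iff', Nat.mod_eq_of_lt (by omega), Nat.mod_eq_of_lt (by omega)]
      at h
    exact Fin.ext h
  have hf0 : f = 0 := by
    refine eq_zero_of_natDegree_lt_card_of_eval_eq_zero f hinj (fun j => ?_) (by simpa using hdeg)
    have h1 := e1 j j.2
    rw [hf, eval_add, eval_finsetSum, eval_C, ← h1]
    congr 1
    refine Finset.sum_congr rfl fun k _ => ?_
    rw [legendreSym.eq_pow, hpn]
    simp [sub_eq_add_neg, mul_comm]
  have hvan : (fun k : Fin n => ext v k) = 0 := by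
    refine Matrix.eq_zero_of_forall_pow_sum_mul_pow_eq_zero
      (f := fun k : Fin n => -((k : ℕ) : ZMod p)) (fun a b h => hinj (neg_injective h)) fun i => ?_
    have h1 := hcoeff (n - i) (by omega)
    rw [hf0, coeff_zero, Nat.sub_sub_self i.2.le, Finset.sum_range] at h1
    rcases mul_eq_zero.1 h1.symm with h | h
    · rw [ZMod.natCast_eq_zero_iff] at h
      exfalso
      have h6 : p ∣ n.factorial := by
        rw [← Nat.choose_mul_factorial_mul_factorial (by omega : n - i ≤ n)]
        exact (h.mul_right _).mul_right _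
      have := (Nat.Prime.dvd_factorial hp.out).1 h6
      omega
    · exact h
  exact hv (eq_zero_of_ext hn0 v hmv (fun k hk => congrFun hvan ⟨k, hk⟩))

theorem det_bord_full (n : ℕ) (hn : p = 2 * n + 1) (h4 : p % 4 = 3) (h3 : p ≠ 3) :
    (bord (toep p ℤ n)).det = 1 := by
  have hnn : 0 ≤ (bord (toep p ℤ n)).det := by
    have := det_skew_nonneg _ (bord_skew (toep_skew h4 ℝ n))
    rw [← det_bord_cast] at this
    exact_mod_cast this
  have hab : (bord (toep p ℤ n)).det.natAbs = 1 := by
    rw [Nat.eq_one_iff_not_exists_prime_dvd]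
    intro l hl hd
    have : Fact l.Prime := ⟨hl⟩
    have hz : (bord (toep p (ZMod l) n)).det = 0 := by
      rw [← det_bord_cast, ZMod.intCast_zmod_eq_zero_iff_dvd]
      exact Int.natCast_dvd.2 hd
    by_cases h2 : l = 2
    · subst h2; exact det_ne_zero_two n hn h4 hz
    by_cases hlp : l = p
    · subst hlp; exact det_ne_zero_self n hn h4 hz
    refine det_ne_zero_generic n hn h4 h3 (ZMod l) ?_ ?_ hz
    · intro h
      have h' : ((2 : ℕ) : ZMod l) = 0 := by exact_mod_cast h
      rw [ZMod.natCast_eq_zero_iff] at h'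
      exact h2 ((Nat.prime_dvd_prime_iff_eq hl Nat.prime_two).1 h')
    · intro h
      rw [ZMod.natCast_eq_zero_iff] at h
      exact hlp ((Nat.prime_dvd_prime_iff_eq hl hp.out).1 h)
  omega

/-- split off the first and the last Toeplitz index -/
def spl (m : ℕ) : (Fin m ⊕ Unit) ⊕ Fin 2 → Fin (m + 2) ⊕ Unit
  | Sum.inl (Sum.inl i) => Sum.inl ⟨i + 1, by omega⟩
  | Sum.inl (Sum.inr _) => Sum.inr ()
  | Sum.inr t => Sum.inl (if t = 0 then ⟨0, by omega⟩ else ⟨m + 1, by omega⟩)

theorem spl_bij (m : ℕ) : Function.Bijective (spl m) := by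
  rw [Fintype.bijective_iff_injective_and_card]
  refine ⟨?_, by simp⟩
  rintro ((i | i) | i) ((j | j) | j) h
  all_goals (try fin_cases i)
  all_goals (try fin_cases j)
  all_goals simp [spl, Fin.ext_iff] at h ⊢
  all_goals omega

theorem det_bord_trunc (m : ℕ) (hn : p = 2 * (m + 2) + 1) (h4 : p % 4 = 3) :
    9 * (bord (toep p ℤ m)).det = ((p : ℤ) - 3 + legendreSym p 3) ^ 2 := by
  have h3 : p ≠ 3 := by omega
  have hpF : ((p : ℕ) : ℚ) ≠ 0 := by exact_mod_cast hp.out.ne_zero
  obtain ⟨N0, ψ, hψ⟩ := AddChar.primitiveZModChar ⟨p, hp.out.pos⟩ ℚ hpF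
  set K := CyclotomicField N0 ℚ
  have h2K : (2 : K) ≠ 0 := two_ne_zero
  have hpK : (p : K) ≠ 0 := by exact_mod_cast hp.out.ne_zero
  set M := bord (toep p K (m + 2)) with hM
  have hdet : M.det = 1 := by
    rw [hM, ← det_bord_cast, det_bord_full (m + 2) hn h4 h3]; simp
  have hu : IsUnit M.det := by rw [hdet]; exact isUnit_one
  set N := M⁻¹ with hN
  have hMN : M * N = 1 := Matrix.mul_nonsing_inv M hu
  have hsk : Mᵀ = -M := bord_skew (toep_skew h4 K (m + 2))
  have hNsk : Nᵀ = -N := by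
    have h1 : Nᵀ * Mᵀ = 1 := by rw [← Matrix.transpose_mul, hMN, Matrix.transpose_one]
    rw [hsk] at h1
    have h2 : Nᵀ * -M * N = N := by rw [h1, Matrix.one_mul]
    rw [Matrix.mul_assoc, Matrix.neg_mul, hMN, Matrix.mul_neg, Matrix.mul_one] at h2
    exact neg_eq_iff_eq_neg.1 h2
  let E := Equiv.ofBijective _ (spl_bij m)
  have hj := jacobi (M.submatrix E E) (N.submatrix E E) (by
    rw [Matrix.submatrix_mul_equiv, hMN, Matrix.submatrix_one_equiv])
  rw [Matrix.det_submatrix_equiv_self, hdet, one_mul, Matrix.det_fin_two] at hj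
  have h11 : (M.submatrix E E).toBlocks₁₁ = bord (toep p K m) := by
    ext (i | i) (j | j) <;> simp [hM, E, spl, bord, toep, Matrix.toBlocks₁₁]
  set a : Fin (m + 2) ⊕ Unit := Sum.inl ⟨0, by omega⟩ with ha
  set b : Fin (m + 2) ⊕ Unit := Sum.inl ⟨m + 1, by omega⟩ with hb
  have hE0 : E (Sum.inr 0) = a := by simp [E, spl, ha]
  have hE1 : E (Sum.inr 1) = b := by simp [E, spl, hb]
  simp only [Matrix.toBlocks₂₂, Matrix.of_apply, Matrix.submatrix_apply, hE0, hE1, h11] at hj
  have haa : N a a = 0 := by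
    have := congrFun (congrFun hNsk a) a
    simp only [Matrix.transpose_apply, Matrix.neg_apply] at this
    apply mul_left_cancel₀ h2K
    linear_combination this
  have hab : N a b = - N b a := by
    have := congrFun (congrFun hNsk b) a
    simpa using this
  set v : Fin (m + 2) ⊕ Unit → K := fun i => N i a with hv
  have hmv : bord (toep p K (m + 2)) *ᵥ v = Pi.single a 1 := by
    ext i
    have := congrFun (congrFun hMN i) a
    rw [Matrix.mul_apply, Matrix.one_apply] at this
    rw [Pi.single_apply, ← this]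
    rfl
  obtain ⟨e1, e2⟩ := mulVec_eqs v _ hmv
  have hc := (core (p := p) (m + 2) hn h4 h3 h2K hpK (ψ := ψ) hψ (ext v) (v (Sum.inr ())) 1
    (fun j hj => by
      have := e1 j hj
      simp only [← chi_int] at this
      push_cast at this
      rw [this, Pi.single_apply]
      simp [ha, Fin.ext_iff]) (by rw [e2, Pi.single_apply]; simp [ha])).2
  have hvb : ext v (m + 2 - 1) = N b a := by
    simp [ext, hv, hb]
  have hc2 : chi p K 2 ^ 2 = 1 := chi_sq (two_ne_zero_zmod h4)
  have hc3 : chi p K 3 = ((legendreSym p 3 : ℤ) : K) := by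
    rw [← chi_int]; simp
  rw [hvb, hc3] at hc
  have hfin : ((9 * (bord (toep p ℤ m)).det : ℤ) : K) =
      ((((p : ℤ) - 3 + legendreSym p 3) ^ 2 : ℤ) : K) := by
    rw [Int.cast_mul, det_bord_cast, ← hj, haa, hab]
    push_cast
    linear_combination (3 * chi p K 2 * N b a + ((p : K) - 3 + ((legendreSym p 3 : ℤ) : K))) * hc
      - 9 * (N b a) ^ 2 * hc2
  exact_mod_cast hfin

theorem leg_three (h4 : p % 4 = 3) (h3 : p ≠ 3) :
    (p : ℤ) - 3 + legendreSym p 3 = 3 * (((p - 2) / 3 : ℕ) : ℤ) := by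
  have : Fact (Nat.Prime 3) := ⟨Nat.prime_three⟩
  have hr := legendreSym.quadratic_reciprocity_three_mod_four (p := 3) (q := p) (by norm_num) h4
  have hm : legendreSym 3 (p : ℤ) = legendreSym 3 ((p : ℤ) % 3) := by
    simpa using legendreSym.mod 3 (p : ℤ)
  have h0 : p % 3 ≠ 0 := by
    intro h
    exact h3 ((Nat.prime_dvd_prime_iff_eq Nat.prime_three hp.out).1
      (Nat.dvd_of_mod_eq_zero h)).symm
  have hr' : legendreSym p 3 = - legendreSym 3 (p : ℤ) := by simpa using hr
  rw [hr', hm]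
  have h12 : p % 3 = 1 ∨ p % 3 = 2 := by omega
  rcases h12 with h | h
  · have : (p : ℤ) % 3 = 1 := by omega
    rw [this, legendreSym.at_one]; omega
  · have : (p : ℤ) % 3 = 2 := by omega
    have h2 : legendreSym 3 2 = -1 := by norm_num
    rw [this, h2]; omega

theorem main (h7 : 7 ≤ p) (h4 : p % 4 = 3) :
    (Matrix.of fun j k : Fin ((p - 5) / 2) =>
      (X + C (legendreSym p ((j : ℤ) - (k : ℤ))) : ℤ[X])).det =
      C ((((p - 2) / 3 : ℕ) : ℤ) ^ 2) * X := by
  set m := (p - 5) / 2 with hm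
  have h1 := det_bord_trunc (p := p) m (by omega) h4
  rw [leg_three h4 (by omega)] at h1
  have h2 : (bord (toep p ℤ m)).det = (((p - 2) / 3 : ℕ) : ℤ) ^ 2 := by linarith
  have h5 : (toep p ℤ[X] m).det = 0 := by
    have e := Matrix.det_transpose (toep p ℤ[X] m)
    have ho : Odd m := by rw [Nat.odd_iff]; omega
    rw [toep_skew h4, Matrix.det_neg, Fintype.card_fin, ho.neg_one_pow] at e
    apply mul_left_cancel₀ (two_ne_zero (α := ℤ[X]))
    linear_combination -e
  have h6 := det_add_const (toep p ℤ[X] m) X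
  rw [h5, ← det_bord_cast, h2, zero_add] at h6
  rw [mul_comm, eq_intCast C, ← h6]
  rfl

end Pool.Agent.P.MP_f45d88_nt
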